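import Pool.Agent.Y149.TL.Uni

/-! Families of varieties over `ℚ` with known orders for pairs: assembly of the final forms from the
library `Pool.Agent.Y149.PK` of the team member helper149. -/

set_option autoImplicit false

open Finset Filter Topology Complex Polynomial

namespace Pool.Agent.U220.PF

open Pool.Agent.H341R2 (E lam lam_tendsto)
open Pool.Agent.Y149.CM (LFun)
open Pool.Agent.Y149.PK

section
variable {ι : Type} {M : ℕ} {Y : ι → Variety} {N : ℕ → ℕ} {τ : ι → ℕ → ℤ}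

theorem mean (h : IsPairFamily Y N M τ) (X : Variety) {B : List ι → ℕ → Nat.Primes → ℂ[X]}
    (hB : IsSystem X Y B) (k n : ℕ) (J : Finset ι) {η : ℝ} (hη : 0 < η) :
    ∀ᶠ ε : ℝ in 𝓝[>] 0,
      (∀ c, c ≤ n → LFun (B [] c) ((c : ℂ) / 2 + 1 + ε) ≠ 0) ∧
      (∀ l ∈ tuples J k, LFun (B (List.ofFn l) n) ((n : ℂ) / 2 + 1 + ε) ≠ 0) ∧
      ∑ l ∈ tuples J k, (size n (B (List.ofFn l) n) ε -
        QQ (fun c => size c (B [] c) ε) (fun e c => (τ e c : ℝ)) (List.ofFn l) n) ^ 2 ≤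
        2 * M * (k * (dimY X.betti N k n : ℝ)) ^ 2 * (J.card : ℝ) ^ (k - 1) + η := by
  obtain ⟨R, B₁, B₂, hsymm, hM, h₁, hτ, h₂, hτ₂⟩ := pair_fam h
  have g1 := bases_ne X (B := fun c => B [] c) (fun c => hB [] c) n
  have g2 := gen_mean h.betti_le hsymm hM h₁ hτ h₂ hτ₂ X (B₀ := fun c => B [] c)
    (fun c => hB [] c) (k := k) (n := n) (B := fun l => B (List.ofFn l) n)
    (fun l => hB (List.ofFn l) n) J hη
  filter_upwards [g1, g2] with ε h3 h4
  exact ⟨h3, h4.1, h4.2⟩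

theorem order (h : IsPairFamily Y N M τ) (X : Variety) {B : List ι → ℕ → Nat.Primes → ℂ[X]}
    (hB : IsSystem X Y B) {k n : ℕ} {r₀ : ℕ → ℤ}
    (hr₀ : ∀ c, c ≤ n → HasOrder c (B [] c) (-(r₀ c)))
    (J : Finset ι) (S : Finset (Fin k → ι)) (r : (Fin k → ι) → ℤ)
    (hS : ∀ l ∈ S, (∀ i, l i ∈ J) ∧ HasOrder n (B (List.ofFn l) n) (-(r l))) :
    ∑ l ∈ S, (r l - QQ r₀ τ (List.ofFn l) n) ^ 2 ≤
      2 * M * (k * (dimY X.betti N k n : ℤ)) ^ 2 * (J.card : ℤ) ^ (k - 1) := by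
  obtain ⟨R, B₁, B₂, hsymm, hM, h₁, hτ, h₂, hτ₂⟩ := pair_fam h
  exact gen_order h.betti_le hsymm hM h₁ hτ h₂ hτ₂ X (B₀ := fun c => B [] c)
    (fun c => hB [] c) (B := fun l => B (List.ofFn l) n) (fun l => hB (List.ofFn l) n) hr₀ J S r hS

/-- number of exceptions from a sum of squares of integers -/
theorem card_of_sq {κ : Type} (S : Finset κ) (f g : κ → ℤ) {A : ℤ}
    (h : ∑ l ∈ S, (f l - g l) ^ 2 ≤ A) : ((S.filter fun l => f l ≠ g l).card : ℤ) ≤ A := by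
  have h1 : ((S.filter fun l => f l ≠ g l).card : ℤ) ≤
      ∑ l ∈ S.filter fun l => f l ≠ g l, (f l - g l) ^ 2 := by
    rw [Finset.card_eq_sum_ones, Nat.cast_sum]
    refine Finset.sum_le_sum fun l hl => ?_
    have h2 : f l - g l ≠ 0 := sub_ne_zero.2 (Finset.mem_filter.1 hl).2
    have h3 : 0 < (f l - g l) ^ 2 := by positivity
    push_cast
    omega
  refine h1.trans (le_trans ?_ h)
  exact Finset.sum_le_sum_of_subset_of_nonneg (Finset.filter_subset _ _) fun _ _ _ => sq_nonneg _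

/-- products of members of the family only -/
theorem order_point (h : IsPairFamily Y N M τ) {k n : ℕ} {B : (Fin k → ι) → Nat.Primes → ℂ[X]}
    (hB : ∀ l, IsEuler n (fun p => frobProd (point.frob p) (fun e => (Y e).frob p)
      (List.ofFn l) n) (B l))
    (J : Finset ι) (S : Finset (Fin k → ι)) (r : (Fin k → ι) → ℤ)
    (hS : ∀ l ∈ S, (∀ i, l i ∈ J) ∧ HasOrder n (B l) (-(r l))) :
    ∑ l ∈ S, (r l - QQ (fun c => if c = 0 then 1 else 0) τ (List.ofFn l) n) ^ 2 ≤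
      2 * M * (k * (dimY point.betti N k n : ℤ)) ^ 2 * (J.card : ℤ) ^ (k - 1) := by
  obtain ⟨R, B₁, B₂, hsymm, hM, h₁, hτ, h₂, hτ₂⟩ := pair_fam h
  have h1 := main_order (gen_fam h.betti_le hsymm hM h₁ hτ h₂ hτ₂) point.VG
    (γ := fun e p => (Y e).frob p)
    (fun e => ((Y e).GG (h.betti_le e)).mono fun p hp => hp.1)
    (fun e => ((Y e).GG (h.betti_le e)).mono fun p hp c => TG_eq hp c) hB
    (z := fun c _ => ((if c = 0 then 1 else 0 : ℤ) : ℝ)) (fun c _ => point_lim c)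
    (q := fun l => ((QQ (fun c => if c = 0 then 1 else 0) τ (List.ofFn l) n : ℤ) : ℝ))
    (fun l ε => QQ_cast (fun c => if c = 0 then 1 else 0) _ n) J S r hS
  rw [KK_gen] at h1
  exact_mod_cast h1

end

end Pool.Agent.U220.PF
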